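import Mathlib

open Filter Topology MeasureTheory Complex
open scoped ComplexConjugate ENNReal

namespace Pool.Agent.Results.MP_060e4f_an.Main

/-- The open upper half-plane. -/
def upperHalf : Set ℂ := {z | 0 < z.im}

/-- `f` is of bounded type in the upper half-plane: it is a quotient `p / q` of two bounded
holomorphic functions there (`q` not identically zero). -/
def BoundedType (f : ℂ → ℂ) : Prop :=
  ∃ p q : ℂ → ℂ, DifferentiableOn ℂ p upperHalf ∧ DifferentiableOn ℂ q upperHalf ∧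
    (∃ C : ℝ, ∀ z ∈ upperHalf, ‖p z‖ ≤ C) ∧ (∃ C : ℝ, ∀ z ∈ upperHalf, ‖q z‖ ≤ C) ∧
    (∃ z ∈ upperHalf, q z ≠ 0) ∧ ∀ z ∈ upperHalf, f z * q z = p z

/-- The mean type `limsup_{y → +∞} y⁻¹ log |f(iy)|`, with `log 0 = -∞`. -/
noncomputable def meanType (f : ℂ → ℂ) : EReal :=
  limsup (fun y : ℝ => ((y⁻¹ : ℝ) : EReal) * ENNReal.log ‖f (y * I)‖ₑ) atTop

/-- `F^*(z) = conj (F (conj z))`. -/
noncomputable def star' (F : ℂ → ℂ) (z : ℂ) : ℂ := conj (F (conj z))

/-- The square of the norm of the de Branges space of `E`. -/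
noncomputable def normSq (E F : ℂ → ℂ) : ℝ≥0∞ := ∫⁻ t : ℝ, ‖F t / E t‖ₑ ^ 2

/-- Membership in the de Branges space `H(E)`. -/
def InH (E F : ℂ → ℂ) : Prop :=
  Differentiable ℂ F ∧ normSq E F < ⊤ ∧
    BoundedType (fun z => F z / E z) ∧ meanType (fun z => F z / E z) ≤ 0 ∧
    BoundedType (fun z => star' F z / E z) ∧ meanType (fun z => star' F z / E z) ≤ 0

/-- The translation group acts continuously on `H(E)`. -/
def TranslationsActContinuously (E : ℂ → ℂ) : Prop :=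
  (∀ f : ℂ → ℂ, InH E f → ∀ z : ℂ, InH E (fun ζ => f (ζ + z))) ∧
  (∀ f : ℂ → ℂ, InH E f → ∀ z₀ : ℂ,
    Tendsto (fun z : ℂ => normSq E (fun ζ => f (ζ + z) - f (ζ + z₀))) (𝓝 z₀) (𝓝 0))

/-- Finite exponential type. -/
def FiniteExponentialType (E : ℂ → ℂ) : Prop :=
  ∃ A B : ℝ, ∀ z : ℂ, ‖E z‖ ≤ A * Real.exp (B * ‖z‖)

/-- The points `4^n - i (k+1)`. -/
noncomputable def root (n k : ℕ) : ℂ := ⟨4 ^ n, -(k + 1)⟩

/-- The finite block of factors. -/
noncomputable def blk (n : ℕ) (z : ℂ) : ℂ := ∏ k ∈ Finset.range (2 ^ n), (1 + -(z / root n k))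

/-- The infinite product. -/
noncomputable def g (z : ℂ) : ℂ := ∏' n, blk n z

/-- The counterexample. -/
noncomputable def E0 (z : ℂ) : ℂ := (z + I) * g z ^ 2

lemma root_norm_ge (n k : ℕ) : (4 : ℝ) ^ n ≤ ‖root n k‖ := by
  have := Complex.abs_re_le_norm (root n k)
  simpa [root, abs_of_pos] using this

lemma root_ne (n k : ℕ) : root n k ≠ 0 := by
  have h := root_norm_ge n k
  have h4 : (0 : ℝ) < 4 ^ n := by positivity
  intro h0
  rw [h0, norm_zero] at h
  linarith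

lemma normSq_sub_root (n k : ℕ) (z : ℂ) :
    ‖z - root n k‖ ^ 2 = (z.re - 4 ^ n) ^ 2 + (z.im + (k + 1)) ^ 2 := by
  rw [← Complex.normSq_eq_norm_sq, Complex.normSq_apply]
  simp [root]
  ring

lemma factor_eq (n k : ℕ) (z : ℂ) : 1 + -(z / root n k) = -(z - root n k) / root n k := by
  have := root_ne n k
  field_simp
  ring

lemma norm_factor (n k : ℕ) (z : ℂ) :
    ‖1 + -(z / root n k)‖ = ‖z - root n k‖ / ‖root n k‖ := by
  rw [factor_eq, norm_div, norm_neg]

lemma sum_norm_le (n : ℕ) (z : ℂ) :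
    ∑ k ∈ Finset.range (2 ^ n), ‖-(z / root n k)‖ ≤ ‖z‖ / 2 ^ n := by
  calc ∑ k ∈ Finset.range (2 ^ n), ‖-(z / root n k)‖
      ≤ ∑ k ∈ Finset.range (2 ^ n), ‖z‖ / 4 ^ n := by
        apply Finset.sum_le_sum
        intro k _
        rw [norm_neg, norm_div]
        exact div_le_div_of_nonneg_left (norm_nonneg _) (by positivity) (root_norm_ge n k)
    _ = ‖z‖ / 2 ^ n := by
        rw [Finset.sum_const, Finset.card_range, nsmul_eq_mul]
        have : (4 : ℝ) ^ n = 2 ^ n * 2 ^ n := by rw [← mul_pow]; norm_num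
        rw [this]
        push_cast
        field_simp

lemma blk_sub_one_le (n : ℕ) (z : ℂ) : ‖blk n z - 1‖ ≤ ‖z‖ * Real.exp ‖z‖ / 2 ^ n := by
  have h1 := Finset.norm_prod_one_add_sub_one_le (Finset.range (2 ^ n)) (fun k => -(z / root n k))
  have h2 := sum_norm_le n z
  set x : ℝ := ‖z‖ / 2 ^ n with hx
  have hx0 : 0 ≤ x := by positivity
  have hxz : x ≤ ‖z‖ := by
    rw [hx]
    apply div_le_self (norm_nonneg _)
    exact one_le_pow₀ (by norm_num)
  have h3 : Real.exp x - 1 ≤ x * Real.exp x := by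
    have := Real.add_one_le_exp (-x)
    have h5 : Real.exp (-x) * Real.exp x = 1 := by rw [← Real.exp_add]; simp
    nlinarith [Real.exp_pos x]
  calc ‖blk n z - 1‖ ≤ Real.exp (∑ k ∈ Finset.range (2 ^ n), ‖-(z / root n k)‖) - 1 := h1
    _ ≤ Real.exp x - 1 := by
        have := Real.exp_le_exp.mpr h2
        linarith
    _ ≤ x * Real.exp x := h3
    _ ≤ x * Real.exp ‖z‖ := by
        apply mul_le_mul_of_nonneg_left _ hx0
        exact Real.exp_le_exp.mpr hxz
    _ = ‖z‖ * Real.exp ‖z‖ / 2 ^ n := by rw [hx]; ring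

lemma blk_differentiable (n : ℕ) : Differentiable ℂ (blk n) := by
  unfold blk
  apply Differentiable.fun_finsetProd
  intro k _
  fun_prop

lemma summable_bound (R : ℝ) : Summable (fun n : ℕ => R * Real.exp R / 2 ^ n) := by
  have : Summable (fun n : ℕ => (R * Real.exp R) * ((1 / 2 : ℝ)) ^ n) :=
    (summable_geometric_of_lt_one (by norm_num) (by norm_num)).mul_left _
  refine this.congr ?_
  intro n
  rw [one_div, inv_pow]
  rfl

lemma blk_sub_one_summable (z : ℂ) : Summable (fun n => ‖blk n z - 1‖) :=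
  Summable.of_nonneg_of_le (fun _ => norm_nonneg _) (fun n => blk_sub_one_le n z)
    (summable_bound ‖z‖)

lemma g_hasProd (z : ℂ) : HasProd (fun n => blk n z) (g z) := by
  have h := multipliable_one_add_of_summable (blk_sub_one_summable z)
  have h2 : Multipliable (fun n => blk n z) := by
    refine h.congr ?_
    intro n; ring
  exact h2.hasProd

lemma g_tendsto (z : ℂ) :
    Tendsto (fun N => ∏ n ∈ Finset.range N, blk n z) atTop (𝓝 (g z)) :=
  (g_hasProd z).tendsto_prod_nat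

lemma g_differentiable : Differentiable ℂ g := by
  have key : TendstoLocallyUniformlyOn (fun (s : Finset ℕ) z => ∏ n ∈ s, blk n z) g atTop
      Set.univ := by
    have h : HasProdLocallyUniformlyOn (fun n z => 1 + (blk n z - 1))
        (fun z => ∏' n, (1 + (blk n z - 1))) Set.univ := by
      apply hasProdLocallyUniformlyOn_of_forall_compact isOpen_univ
      intro K _ hK
      obtain ⟨R, hR⟩ := hK.isBounded.exists_norm_le
      apply Summable.hasProdUniformlyOn_nat_one_add hK (summable_bound (max R 0))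
      · filter_upwards with n z hz
        refine (blk_sub_one_le n z).trans ?_
        have h1 : ‖z‖ ≤ max R 0 := (hR z hz).trans (le_max_left _ _)
        have h2 : (0 : ℝ) ≤ max R 0 := le_max_right _ _
        gcongr
      · intro n
        exact ((blk_differentiable n).continuous.sub continuous_const).continuousOn
    have h' := hasProdLocallyUniformlyOn_iff_tendstoLocallyUniformlyOn.mp h
    refine (h'.congr ?_).congr_right ?_
    · intro s z _
      simp
    · intro z _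
      simp [g]
  have h2 := key.differentiableOn (Eventually.of_forall ?_) isOpen_univ
  · exact differentiableOn_univ.mp h2
  · intro s
    exact (Differentiable.fun_finsetProd (fun n _ => blk_differentiable n)).differentiableOn


lemma norm_blk (n : ℕ) (z : ℂ) :
    ‖blk n z‖ = ∏ k ∈ Finset.range (2 ^ n), (‖z - root n k‖ / ‖root n k‖) := by
  unfold blk
  rw [norm_prod]
  exact Finset.prod_congr rfl (fun k _ => norm_factor n k z)

lemma norm_blk_le (n : ℕ) (z w : ℂ) (h : ∀ k, ‖z - root n k‖ ≤ ‖w - root n k‖) :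
    ‖blk n z‖ ≤ ‖blk n w‖ := by
  rw [norm_blk, norm_blk]
  apply Finset.prod_le_prod
  · intro k _; positivity
  · intro k _
    exact div_le_div_of_nonneg_right (h k) (norm_nonneg _)

lemma blk_ne_zero (n : ℕ) (z : ℂ) (hz : 0 ≤ z.im) : blk n z ≠ 0 := by
  unfold blk
  rw [Finset.prod_ne_zero_iff]
  intro k _
  rw [factor_eq]
  apply div_ne_zero _ (root_ne n k)
  intro h0
  have h1 : z = root n k := by
    have := neg_eq_zero.mp h0
    exact sub_eq_zero.mp this
  rw [h1] at hz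
  simp [root] at hz
  have : (0 : ℝ) ≤ k := Nat.cast_nonneg k
  linarith

lemma g_ne_zero (z : ℂ) (hz : 0 ≤ z.im) : g z ≠ 0 := by
  have h := tprod_one_add_ne_zero_of_summable (R := ℂ) (f := fun n => blk n z - 1)
    (fun n => by
      have := blk_ne_zero n z hz
      simpa using this) (blk_sub_one_summable z)
  simpa [g] using h

lemma g_norm_tendsto (z : ℂ) :
    Tendsto (fun N => ∏ n ∈ Finset.range N, ‖blk n z‖) atTop (𝓝 ‖g z‖) := by
  have := (g_tendsto z).norm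
  simpa [norm_prod] using this

lemma g_norm_le_of (z w : ℂ) (h : ∀ n k, ‖z - root n k‖ ≤ ‖w - root n k‖) : ‖g z‖ ≤ ‖g w‖ := by
  refine le_of_tendsto_of_tendsto' (g_norm_tendsto z) (g_norm_tendsto w) ?_
  intro N
  apply Finset.prod_le_prod
  · intro n _; positivity
  · intro n _; exact norm_blk_le n z w (h n)

lemma dist_root_le_of (n k : ℕ) (z w : ℂ) (hre : z.re = w.re)
    (him : |z.im + (k + 1)| ≤ |w.im + (k + 1)|) : ‖z - root n k‖ ≤ ‖w - root n k‖ := by
  apply le_of_sq_le_sq _ (norm_nonneg _)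
  rw [normSq_sub_root, normSq_sub_root, hre]
  have := sq_le_sq.mpr him
  linarith

lemma g_conj_le (z : ℂ) (hz : 0 < z.im) : ‖g (conj z)‖ ≤ ‖g z‖ := by
  apply g_norm_le_of
  intro n k
  apply dist_root_le_of
  · simp
  · simp only [conj_im]
    have hk : (0 : ℝ) ≤ k := Nat.cast_nonneg k
    rw [abs_of_pos (show (0 : ℝ) < z.im + (k + 1) by linarith)]
    rw [abs_le]
    constructor <;> linarith

lemma norm_blk_growth (n : ℕ) (z : ℂ) : ‖blk n z‖ ≤ Real.exp (‖z‖ / 2 ^ n) := by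
  calc ‖blk n z‖ ≤ ∏ k ∈ Finset.range (2 ^ n), Real.exp ‖-(z / root n k)‖ := by
        unfold blk
        rw [norm_prod]
        apply Finset.prod_le_prod
        · intro k _; positivity
        · intro k _
          refine (norm_add_le _ _).trans ?_
          rw [norm_one, add_comm]
          exact Real.add_one_le_exp _
    _ = Real.exp (∑ k ∈ Finset.range (2 ^ n), ‖-(z / root n k)‖) := by
        rw [Real.exp_sum]
    _ ≤ _ := Real.exp_le_exp.mpr (sum_norm_le n z)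

lemma geom_half_le (N : ℕ) : ∑ n ∈ Finset.range N, (1 / 2 : ℝ) ^ n ≤ 2 := by
  have h : ∑ n ∈ Finset.range N, (1 / 2 : ℝ) ^ n = 2 - 2 * (1 / 2) ^ N := by
    induction N with
    | zero => simp
    | succ N ih =>
      rw [Finset.sum_range_succ, ih, pow_succ]
      ring
  rw [h]
  have : (0 : ℝ) ≤ (1 / 2) ^ N := by positivity
  linarith

lemma g_growth (z : ℂ) : ‖g z‖ ≤ Real.exp (2 * ‖z‖) := by
  refine le_of_tendsto' (g_norm_tendsto z) ?_
  intro N
  calc ∏ n ∈ Finset.range N, ‖blk n z‖ ≤ ∏ n ∈ Finset.range N, Real.exp (‖z‖ / 2 ^ n) := by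
        apply Finset.prod_le_prod
        · intro n _; positivity
        · intro n _; exact norm_blk_growth n z
    _ = Real.exp (∑ n ∈ Finset.range N, ‖z‖ / 2 ^ n) := by rw [Real.exp_sum]
    _ ≤ Real.exp (2 * ‖z‖) := by
        apply Real.exp_le_exp.mpr
        have h1 : ∑ n ∈ Finset.range N, ‖z‖ / 2 ^ n = ‖z‖ * ∑ n ∈ Finset.range N, (1 / 2 : ℝ) ^ n := by
          rw [Finset.mul_sum]
          apply Finset.sum_congr rfl
          intro n _
          rw [one_div, inv_pow]; rfl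
        have h2 := geom_half_le N
        rw [h1, mul_comm 2]
        exact mul_le_mul_of_nonneg_left h2 (norm_nonneg _)

/-- One factor of the translation estimate. -/
lemma factor_shift (s x : ℝ) (k : ℕ) :
    ((s + x) ^ 2 + ((k : ℝ) + 1) ^ 2) ≤
      Real.exp (4 * (2 * |x| + x ^ 2) * (|s| + 1) *
        (1 / (|s| + k + 1) - 1 / (|s| + k + 2))) * (s ^ 2 + ((k : ℝ) + 1) ^ 2) := by
  have hk : (0 : ℝ) ≤ k := Nat.cast_nonneg k
  have hs := abs_nonneg s
  have hx := abs_nonneg x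
  have hss : s ^ 2 = |s| ^ 2 := (sq_abs s).symm
  set a := |s| with ha
  set c := 2 * |x| + x ^ 2 with hc
  have hc0 : 0 ≤ c := by positivity
  have hD : 0 < s ^ 2 + ((k : ℝ) + 1) ^ 2 := by positivity
  have hid : 1 / (a + k + 1) - 1 / (a + k + 2) = 1 / ((a + k + 1) * (a + k + 2)) := by
    field_simp
    ring
  rw [hid]
  set T := 4 * c * (a + 1) * (1 / ((a + k + 1) * (a + k + 2))) with hT
  have h1 : T + 1 ≤ Real.exp T := Real.add_one_le_exp T
  have h2 : (s + x) ^ 2 + ((k : ℝ) + 1) ^ 2 ≤ (T + 1) * (s ^ 2 + ((k : ℝ) + 1) ^ 2) := by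
    have h3 : 2 * s * x + x ^ 2 ≤ c * (a + 1) := by
      have : s * x ≤ a * |x| := by rw [ha, ← abs_mul]; exact le_abs_self _
      rw [hc]
      nlinarith [sq_nonneg x, mul_nonneg hs (sq_nonneg x)]
    have h4 : c * (a + 1) ≤ T * (s ^ 2 + ((k : ℝ) + 1) ^ 2) := by
      have h5 : (a + k + 1) * (a + k + 2) ≤ 4 * (s ^ 2 + ((k : ℝ) + 1) ^ 2) := by
        rw [hss]
        nlinarith [sq_nonneg (a - (k + 1)), mul_nonneg hs hk]
      have h6 : 0 < (a + k + 1) * (a + k + 2) := by positivity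
      have h7 : 1 ≤ 4 * (s ^ 2 + ((k : ℝ) + 1) ^ 2) / ((a + k + 1) * (a + k + 2)) := by
        rw [le_div_iff₀ h6]; linarith
      have h8 : T * (s ^ 2 + ((k : ℝ) + 1) ^ 2) =
          c * (a + 1) * (4 * (s ^ 2 + ((k : ℝ) + 1) ^ 2) / ((a + k + 1) * (a + k + 2))) := by
        rw [hT]; ring
      rw [h8]
      exact le_mul_of_one_le_right (by positivity) h7
    nlinarith
  calc (s + x) ^ 2 + ((k : ℝ) + 1) ^ 2 ≤ (T + 1) * (s ^ 2 + ((k : ℝ) + 1) ^ 2) := h2
    _ ≤ Real.exp T * (s ^ 2 + ((k : ℝ) + 1) ^ 2) := by gcongr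

lemma telescope (a : ℝ) (K : ℕ) :
    ∑ k ∈ Finset.range K, (1 / (a + k + 1) - 1 / (a + k + 2)) = 1 / (a + 1) - 1 / (a + K + 1) := by
  induction K with
  | zero => simp
  | succ K ih =>
    rw [Finset.sum_range_succ, ih]
    push_cast
    ring

/-- The weight controlling the translation of block `n`. -/
noncomputable def wt (n : ℕ) (t : ℝ) : ℝ := 2 ^ n / (|t - 4 ^ n| + 2 ^ n + 1)

lemma blk_shift (n : ℕ) (t x : ℝ) :
    ‖blk n ((t + x : ℝ) : ℂ)‖ ^ 2 ≤
      Real.exp (4 * (2 * |x| + x ^ 2) * wt n t) * ‖blk n (t : ℂ)‖ ^ 2 := by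
  set s : ℝ := t - 4 ^ n with hs
  have h1 : ∀ y : ℝ, ‖blk n (y : ℂ)‖ ^ 2 =
      ∏ k ∈ Finset.range (2 ^ n), (((y - 4 ^ n) ^ 2 + ((k : ℝ) + 1) ^ 2) / ‖root n k‖ ^ 2) := by
    intro y
    rw [norm_blk, ← Finset.prod_pow]
    apply Finset.prod_congr rfl
    intro k _
    rw [div_pow, normSq_sub_root]
    simp
  rw [h1, h1]
  have h2 : 4 * (2 * |x| + x ^ 2) * wt n t =
      ∑ k ∈ Finset.range (2 ^ n), (4 * (2 * |x| + x ^ 2) * (|s| + 1) *
        (1 / (|s| + k + 1) - 1 / (|s| + k + 2))) := by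
    rw [← Finset.mul_sum, telescope, wt, ← hs]
    have := abs_nonneg s
    push_cast
    field_simp
    ring
  rw [h2, Real.exp_sum, ← Finset.prod_mul_distrib]
  apply Finset.prod_le_prod
  · intro k _; positivity
  · intro k _
    have h3 := factor_shift s x k
    rw [← mul_div_assoc]
    apply div_le_div_of_nonneg_right _ (by positivity)
    have h4 : t + x - 4 ^ n = s + x := by rw [hs]; ring
    rw [h4]
    exact h3

lemma wt_nonneg (n : ℕ) (t : ℝ) : 0 ≤ wt n t := by unfold wt; positivity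

lemma wt_le_one (n : ℕ) (t : ℝ) : wt n t ≤ 1 := by
  unfold wt
  rw [div_le_one (by positivity)]
  have := abs_nonneg (t - 4 ^ n)
  linarith

lemma wt_le (n : ℕ) (t : ℝ) (h : (4 : ℝ) ^ n / 2 ≤ |t - 4 ^ n|) : wt n t ≤ 2 * (1 / 2) ^ n := by
  unfold wt
  have h4 : (4 : ℝ) ^ n = 2 ^ n * 2 ^ n := by rw [← mul_pow]; norm_num
  have h2 : (0 : ℝ) < 2 ^ n := by positivity
  rw [div_le_iff₀ (by positivity), one_div, inv_pow]
  have h5 : 2 * ((2 : ℝ) ^ n)⁻¹ * (|t - 4 ^ n| + 2 ^ n + 1) ≥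
      2 * ((2 : ℝ) ^ n)⁻¹ * (2 ^ n * 2 ^ n / 2) := by
    apply mul_le_mul_of_nonneg_left _ (by positivity)
    rw [h4] at h
    rw [h4]
    linarith
  have h6 : 2 * ((2 : ℝ) ^ n)⁻¹ * (2 ^ n * 2 ^ n / 2) = 2 ^ n := by
    field_simp
  linarith

lemma wt_sum_le (t : ℝ) (N : ℕ) : ∑ n ∈ Finset.range N, wt n t ≤ 5 := by
  classical
  have h1 : ∀ n ∈ Finset.range N, wt n t ≤
      2 * (1 / 2) ^ n + (if |t - 4 ^ n| < (4 : ℝ) ^ n / 2 then 1 else 0) := by
    intro n _
    split_ifs with h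
    · have := wt_le_one n t
      have h2 : (0 : ℝ) ≤ 2 * (1 / 2) ^ n := by positivity
      linarith
    · have := wt_le n t (not_lt.mp h)
      linarith
  refine (Finset.sum_le_sum h1).trans ?_
  rw [Finset.sum_add_distrib, ← Finset.mul_sum]
  have h2 := geom_half_le N
  have h3 : ∑ n ∈ Finset.range N, (if |t - 4 ^ n| < (4 : ℝ) ^ n / 2 then (1 : ℝ) else 0) ≤ 1 := by
    rw [← Finset.sum_filter, Finset.sum_const, nsmul_eq_mul, mul_one]
    have : (Finset.filter (fun n => |t - 4 ^ n| < (4 : ℝ) ^ n / 2) (Finset.range N)).card ≤ 1 := by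
      rw [Finset.card_le_one]
      have aux : ∀ a b : ℕ, a < b → |t - 4 ^ a| < (4 : ℝ) ^ a / 2 → |t - 4 ^ b| < (4 : ℝ) ^ b / 2 →
          False := by
        intro a b hab ha hb
        rw [abs_lt] at ha hb
        have h5 : (4 : ℝ) ^ (a + 1) ≤ 4 ^ b := pow_le_pow_right₀ (by norm_num) hab
        rw [pow_succ] at h5
        have h6 : (0 : ℝ) < 4 ^ a := by positivity
        linarith [ha.2, hb.1]
      intro a ha b hb
      rw [Finset.mem_filter] at ha hb
      rcases lt_trichotomy a b with h | h | h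
      · exact (aux a b h ha.2 hb.2).elim
      · exact h
      · exact (aux b a h hb.2 ha.2).elim
    exact_mod_cast this
  linarith

lemma g_shift (t x : ℝ) :
    ‖g ((t + x : ℝ) : ℂ)‖ ^ 2 ≤ Real.exp (20 * (2 * |x| + x ^ 2)) * ‖g (t : ℂ)‖ ^ 2 := by
  have h1 := (g_norm_tendsto ((t + x : ℝ) : ℂ)).pow 2
  have h2 := ((g_norm_tendsto (t : ℂ)).pow 2).const_mul (Real.exp (20 * (2 * |x| + x ^ 2)))
  refine le_of_tendsto_of_tendsto' h1 h2 ?_
  intro N
  rw [← Finset.prod_pow, ← Finset.prod_pow]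
  have hc : 0 ≤ 2 * |x| + x ^ 2 := by positivity
  calc ∏ n ∈ Finset.range N, ‖blk n ((t + x : ℝ) : ℂ)‖ ^ 2
      ≤ ∏ n ∈ Finset.range N, (Real.exp (4 * (2 * |x| + x ^ 2) * wt n t) * ‖blk n (t : ℂ)‖ ^ 2) := by
        apply Finset.prod_le_prod
        · intro n _; positivity
        · intro n _; exact blk_shift n t x
    _ = Real.exp (4 * (2 * |x| + x ^ 2) * ∑ n ∈ Finset.range N, wt n t) *
          ∏ n ∈ Finset.range N, ‖blk n (t : ℂ)‖ ^ 2 := by
        rw [Finset.prod_mul_distrib, ← Real.exp_sum, Finset.mul_sum]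
    _ ≤ _ := by
        apply mul_le_mul_of_nonneg_right _ (Finset.prod_nonneg (fun n _ => by positivity))
        apply Real.exp_le_exp.mpr
        have := wt_sum_le t N
        nlinarith

/-- Lower bound on the imaginary translate. -/
lemma blk_up (n : ℕ) (t : ℝ) :
    (((t - 4 ^ n) ^ 2 + ((2 : ℝ) ^ n + 1) ^ 2) / ((t - 4 ^ n) ^ 2 + 1)) * ‖blk n (t : ℂ)‖ ^ 2 =
      ‖blk n ((t : ℂ) + I)‖ ^ 2 := by
  have h1 : ‖blk n (t : ℂ)‖ ^ 2 =
      ∏ k ∈ Finset.range (2 ^ n), (((t - 4 ^ n) ^ 2 + ((k : ℝ) + 1) ^ 2) / ‖root n k‖ ^ 2) := by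
    rw [norm_blk, ← Finset.prod_pow]
    apply Finset.prod_congr rfl
    intro k _
    rw [div_pow, normSq_sub_root]
    simp
  have h2 : ‖blk n ((t : ℂ) + I)‖ ^ 2 =
      ∏ k ∈ Finset.range (2 ^ n), (((t - 4 ^ n) ^ 2 + ((k : ℝ) + 2) ^ 2) / ‖root n k‖ ^ 2) := by
    rw [norm_blk, ← Finset.prod_pow]
    apply Finset.prod_congr rfl
    intro k _
    rw [div_pow, normSq_sub_root]
    simp
    ring_nf
  rw [h1, h2, Finset.prod_div_distrib, Finset.prod_div_distrib, ← mul_div_assoc]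
  congr 1
  have h3 : ∀ K : ℕ, (((t - 4 ^ n) ^ 2 + ((K : ℝ) + 1) ^ 2) / ((t - 4 ^ n) ^ 2 + 1)) *
      ∏ k ∈ Finset.range K, ((t - 4 ^ n) ^ 2 + ((k : ℝ) + 1) ^ 2) =
      ∏ k ∈ Finset.range K, ((t - 4 ^ n) ^ 2 + ((k : ℝ) + 2) ^ 2) := by
    intro K
    induction K with
    | zero =>
      have h0 : (t - 4 ^ n) ^ 2 + 1 ≠ 0 := by positivity
      simp [div_self h0]
    | succ K ih =>
      rw [Finset.prod_range_succ, Finset.prod_range_succ, ← ih]
      push_cast
      ring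
  have h4 := h3 (2 ^ n)
  push_cast at h4
  exact h4

lemma blk_up_ge (n : ℕ) (t : ℝ) (h0 : (4 : ℝ) ^ n ≤ t) (h1 : t ≤ 4 ^ n + 1) :
    (4 : ℝ) ^ n / 2 * ‖blk n (t : ℂ)‖ ^ 2 ≤ ‖blk n ((t : ℂ) + I)‖ ^ 2 := by
  rw [← blk_up]
  apply mul_le_mul_of_nonneg_right _ (by positivity)
  have h4 : (4 : ℝ) ^ n = 2 ^ n * 2 ^ n := by rw [← mul_pow]; norm_num
  have h2 : (0 : ℝ) < 2 ^ n := by positivity
  have h3 : (t - 4 ^ n) ^ 2 ≤ 1 := by nlinarith
  rw [le_div_iff₀ (by positivity)]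
  have h5 : (4 : ℝ) ^ n / 2 * ((t - 4 ^ n) ^ 2 + 1) ≤ 4 ^ n / 2 * 2 := by
    apply mul_le_mul_of_nonneg_left _ (by positivity)
    linarith
  nlinarith [sq_nonneg (t - 4 ^ n)]

lemma g_up_ge (n : ℕ) (t : ℝ) (h0 : (4 : ℝ) ^ n ≤ t) (h1 : t ≤ 4 ^ n + 1) :
    (4 : ℝ) ^ n / 2 * ‖g (t : ℂ)‖ ^ 2 ≤ ‖g ((t : ℂ) + I)‖ ^ 2 := by
  have h2 := (g_norm_tendsto ((t : ℂ) + I)).pow 2
  have h3 := ((g_norm_tendsto (t : ℂ)).pow 2).const_mul ((4 : ℝ) ^ n / 2)
  refine le_of_tendsto_of_tendsto h3 h2 ?_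
  filter_upwards [eventually_gt_atTop n] with N hN
  have hmem : n ∈ Finset.range N := Finset.mem_range.mpr hN
  rw [← Finset.prod_pow, ← Finset.prod_pow, ← Finset.mul_prod_erase _ _ hmem,
    ← Finset.mul_prod_erase _ _ hmem, ← mul_assoc]
  apply mul_le_mul (blk_up_ge n t h0 h1) _ (Finset.prod_nonneg (fun n _ => by positivity))
    (by positivity)
  apply Finset.prod_le_prod
  · intro m _; positivity
  · intro m _
    apply pow_le_pow_left₀ (norm_nonneg _)
    apply norm_blk_le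
    intro k
    apply dist_root_le_of
    · simp
    · have hk : (0 : ℝ) ≤ k := Nat.cast_nonneg k
      simp
      rw [abs_of_nonneg (by linarith), abs_of_nonneg (by linarith)]
      linarith


lemma E0_ne_zero (z : ℂ) (hz : 0 ≤ z.im) : E0 z ≠ 0 := by
  unfold E0
  apply mul_ne_zero _ (pow_ne_zero _ (g_ne_zero z hz))
  intro h
  have := congrArg Complex.im h
  simp at this
  linarith

lemma bounded_boundedType (f : ℂ → ℂ) (hd : DifferentiableOn ℂ f upperHalf)
    (hb : ∀ z ∈ upperHalf, ‖f z‖ ≤ 1) : BoundedType f := by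
  refine ⟨f, fun _ => 1, hd, differentiableOn_const _, ⟨1, hb⟩, ⟨1, fun z _ => by simp⟩,
    ⟨I, by simp [upperHalf], one_ne_zero⟩, fun z _ => by simp⟩

lemma bounded_meanType (f : ℂ → ℂ) (hb : ∀ z ∈ upperHalf, ‖f z‖ ≤ 1) : meanType f ≤ 0 := by
  unfold meanType
  apply Filter.limsup_le_of_le
  · isBoundedDefault
  filter_upwards [eventually_gt_atTop (0 : ℝ)] with y hy
  have h1 : ‖f (y * I)‖ ≤ 1 := hb _ (by simpa [upperHalf] using hy)
  have h2 : ‖f (y * I)‖ₑ ≤ 1 := by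
    rw [← ofReal_norm, ENNReal.ofReal_le_one]
    exact h1
  have h3 : ENNReal.log ‖f (y * I)‖ₑ ≤ 0 := by
    rw [← ENNReal.log_one]
    exact ENNReal.log_monotone h2
  have h4 : (0 : EReal) ≤ ((y⁻¹ : ℝ) : EReal) := by
    exact_mod_cast (inv_nonneg.mpr hy.le)
  calc ((y⁻¹ : ℝ) : EReal) * ENNReal.log ‖f (y * I)‖ₑ ≤ ((y⁻¹ : ℝ) : EReal) * 0 :=
        mul_le_mul_of_nonneg_left h3 h4
    _ = 0 := mul_zero _

lemma isOpen_upperHalf : IsOpen upperHalf := isOpen_lt continuous_const Complex.continuous_im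

lemma norm_add_I_ge (z : ℂ) (hz : 0 ≤ z.im) : 1 ≤ ‖z + I‖ := by
  have := Complex.abs_im_le_norm (z + I)
  simp at this
  rw [abs_of_nonneg (by linarith)] at this
  linarith

lemma quot_eq (z : ℂ) (hz : 0 ≤ z.im) : g z ^ 2 / E0 z = 1 / (z + I) := by
  have h1 := g_ne_zero z hz
  have h2 : z + I ≠ 0 := by
    intro h
    have := norm_add_I_ge z hz
    rw [h, norm_zero] at this
    linarith
  unfold E0
  field_simp

lemma E0_differentiable : Differentiable ℂ E0 := by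
  unfold E0
  exact (differentiable_id.add_const _).mul (g_differentiable.pow 2)

lemma star_differentiable (F : ℂ → ℂ) (hF : Differentiable ℂ F) : Differentiable ℂ (star' F) := by
  intro z
  unfold star'
  have := (hF (conj z)).hasDerivAt
  have h2 := HasDerivAt.conj_conj this
  simpa [Function.comp_def] using h2.differentiableAt

lemma g_sq_inH : InH E0 (fun z => g z ^ 2) := by
  have hdF : Differentiable ℂ (fun z => g z ^ 2) := g_differentiable.pow 2
  have hd1 : DifferentiableOn ℂ (fun z => g z ^ 2 / E0 z) upperHalf := by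
    apply DifferentiableOn.div hdF.differentiableOn E0_differentiable.differentiableOn
    intro z hz
    exact E0_ne_zero z (le_of_lt hz)
  have hd2 : DifferentiableOn ℂ (fun z => star' (fun z => g z ^ 2) z / E0 z) upperHalf := by
    apply DifferentiableOn.div (star_differentiable _ hdF).differentiableOn
      E0_differentiable.differentiableOn
    intro z hz
    exact E0_ne_zero z (le_of_lt hz)
  have hb1 : ∀ z ∈ upperHalf, ‖g z ^ 2 / E0 z‖ ≤ 1 := by
    intro z hz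
    rw [quot_eq z (le_of_lt hz), norm_div, norm_one]
    apply div_le_one_of_le₀ (norm_add_I_ge z (le_of_lt hz)) (norm_nonneg _)
  have hb2 : ∀ z ∈ upperHalf, ‖star' (fun z => g z ^ 2) z / E0 z‖ ≤ 1 := by
    intro z hz
    have h1 : ‖star' (fun z => g z ^ 2) z‖ ≤ ‖g z ^ 2‖ := by
      unfold star'
      rw [Complex.norm_conj, norm_pow, norm_pow]
      exact pow_le_pow_left₀ (norm_nonneg _) (g_conj_le z hz) 2
    rw [norm_div]
    refine le_trans (div_le_div_of_nonneg_right h1 (norm_nonneg _)) ?_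
    rw [← norm_div]
    exact hb1 z hz
  refine ⟨hdF, ?_, bounded_boundedType _ hd1 hb1, bounded_meanType _ hb1,
    bounded_boundedType _ hd2 hb2, bounded_meanType _ hb2⟩
  unfold normSq
  have h1 : ∀ t : ℝ, ‖g (t : ℂ) ^ 2 / E0 (t : ℂ)‖ₑ ^ 2 = ENNReal.ofReal ((1 + t ^ 2)⁻¹) := by
    intro t
    rw [quot_eq (t : ℂ) (by simp), ← ofReal_norm, ← ENNReal.ofReal_pow (norm_nonneg _)]
    congr 1
    rw [norm_div, div_pow, norm_one, ← Complex.normSq_eq_norm_sq, Complex.normSq_apply]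
    simp
    ring
  simp_rw [h1]
  have h2 := integrable_inv_one_add_sq
  have h3 := h2.hasFiniteIntegral
  rw [hasFiniteIntegral_iff_ofReal] at h3
  · exact h3
  · filter_upwards with t
    positivity

lemma normSq_shift_top : normSq E0 (fun ζ => g (ζ + I) ^ 2) = ⊤ := by
  have h1 : ∀ n : ℕ, ∀ t ∈ Set.Icc ((4 : ℝ) ^ n) (4 ^ n + 1),
      ENNReal.ofReal (1 / 20) ≤ ‖g ((t : ℂ) + I) ^ 2 / E0 (t : ℂ)‖ₑ ^ 2 := by
    intro n t ht
    rw [← ofReal_norm, ← ENNReal.ofReal_pow (norm_nonneg _)]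
    apply ENNReal.ofReal_le_ofReal
    have h2 := g_up_ge n t ht.1 ht.2
    have h3 : 0 < ‖g (t : ℂ)‖ := norm_pos_iff.mpr (g_ne_zero _ (by simp))
    have h4 : ‖E0 (t : ℂ)‖ ^ 2 = (t ^ 2 + 1) * (‖g (t : ℂ)‖ ^ 2) ^ 2 := by
      have h40 : ‖(t : ℂ) + I‖ ^ 2 = t ^ 2 + 1 := by
        rw [← Complex.normSq_eq_norm_sq, Complex.normSq_apply]
        simp
        ring
      unfold E0
      rw [norm_mul, mul_pow, norm_pow, h40]
    rw [norm_div, div_pow, h4, norm_pow]
    set G := ‖g (t : ℂ)‖ ^ 2 with hG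
    have hGpos : 0 < G := by positivity
    set H := ‖g ((t : ℂ) + I)‖ ^ 2 with hH
    have h5 : (1 : ℝ) ≤ 4 ^ n := one_le_pow₀ (by norm_num)
    rw [le_div_iff₀ (by positivity)]
    have h6 : t ^ 2 + 1 ≤ 5 * ((4 : ℝ) ^ n) ^ 2 := by nlinarith [ht.1, ht.2]
    have h7 : ((4 : ℝ) ^ n / 2 * G) ^ 2 ≤ H ^ 2 := by
      apply pow_le_pow_left₀ (by positivity) h2
    have h8 : (t ^ 2 + 1) * G ^ 2 ≤ 5 * ((4 : ℝ) ^ n) ^ 2 * G ^ 2 := by
      apply mul_le_mul_of_nonneg_right h6 (by positivity)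
    nlinarith
  unfold normSq
  have hdisj : Pairwise (Function.onFun Disjoint (fun n : ℕ => Set.Icc ((4 : ℝ) ^ n) (4 ^ n + 1))) := by
    have aux : ∀ a b : ℕ, a < b →
        Disjoint (Set.Icc ((4 : ℝ) ^ a) (4 ^ a + 1)) (Set.Icc ((4 : ℝ) ^ b) (4 ^ b + 1)) := by
      intro a b hab
      rw [Set.disjoint_left]
      intro t ha hb
      have h5 : (4 : ℝ) ^ (a + 1) ≤ 4 ^ b := pow_le_pow_right₀ (by norm_num) hab
      rw [pow_succ] at h5
      have h6 : (1 : ℝ) ≤ 4 ^ a := one_le_pow₀ (by norm_num)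
      linarith [ha.2, hb.1]
    intro a b hab
    rcases lt_or_gt_of_ne hab with h | h
    · exact aux a b h
    · exact (aux b a h).symm
  rw [eq_top_iff]
  calc (⊤ : ℝ≥0∞) = ∑' n : ℕ, ENNReal.ofReal (1 / 20) :=
        (ENNReal.tsum_const_eq_top_of_ne_zero (by simp)).symm
    _ ≤ ∑' n : ℕ, ∫⁻ t in Set.Icc ((4 : ℝ) ^ n) (4 ^ n + 1),
          ‖g ((t : ℂ) + I) ^ 2 / E0 (t : ℂ)‖ₑ ^ 2 := by
        apply ENNReal.tsum_le_tsum
        intro n
        calc ENNReal.ofReal (1 / 20) = ∫⁻ t in Set.Icc ((4 : ℝ) ^ n) (4 ^ n + 1),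
              ENNReal.ofReal (1 / 20) := by
              rw [setLIntegral_const, Real.volume_Icc]
              simp
          _ ≤ _ := setLIntegral_mono' measurableSet_Icc (h1 n)
    _ = ∫⁻ t in ⋃ n : ℕ, Set.Icc ((4 : ℝ) ^ n) (4 ^ n + 1),
          ‖g ((t : ℂ) + I) ^ 2 / E0 (t : ℂ)‖ₑ ^ 2 :=
        (lintegral_iUnion (fun n => measurableSet_Icc) hdisj _).symm
    _ ≤ _ := setLIntegral_le_lintegral _ _

/-- **Negative answer to Q1.** There is an entire `E` with `|E(conj z)| < |E z|` in the open upper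
half-plane, without real zeros, of finite exponential type, with
`sup_t |E(t+x)/E(t)| < ∞` for every real `x`, such that the translation group does not act
continuously on the de Branges space `H(E)`. -/
theorem result : ∃ E : ℂ → ℂ,
    Differentiable ℂ E ∧
    (∀ z : ℂ, 0 < z.im → ‖E (conj z)‖ < ‖E z‖) ∧
    FiniteExponentialType E ∧
    (∀ t : ℝ, E t ≠ 0) ∧
    (∀ x : ℝ, ∃ C : ℝ, ∀ t : ℝ, ‖E ((t + x : ℝ) : ℂ) / E (t : ℂ)‖ ≤ C) ∧
    ¬ TranslationsActContinuously E := by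
  refine ⟨E0, E0_differentiable, ?_, ?_, fun t => E0_ne_zero _ (by simp), ?_, ?_⟩
  · intro z hz
    unfold E0
    rw [norm_mul, norm_mul, norm_pow, norm_pow]
    have h1 := g_conj_le z hz
    have h2 : 0 < ‖g z‖ := norm_pos_iff.mpr (g_ne_zero z hz.le)
    have h3 : ‖conj z + I‖ < ‖z + I‖ := by
      apply lt_of_pow_lt_pow_left₀ 2 (norm_nonneg _)
      rw [← Complex.normSq_eq_norm_sq, ← Complex.normSq_eq_norm_sq, Complex.normSq_apply,
        Complex.normSq_apply]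
      simp
      nlinarith
    calc ‖conj z + I‖ * ‖g (conj z)‖ ^ 2 ≤ ‖conj z + I‖ * ‖g z‖ ^ 2 := by
          apply mul_le_mul_of_nonneg_left _ (norm_nonneg _)
          exact pow_le_pow_left₀ (norm_nonneg _) h1 2
      _ < ‖z + I‖ * ‖g z‖ ^ 2 := by
          apply mul_lt_mul_of_pos_right h3 (by positivity)
  · refine ⟨1, 5, fun z => ?_⟩
    unfold E0
    rw [norm_mul, norm_pow]
    have h1 := g_growth z
    have h2 : ‖z + I‖ ≤ Real.exp ‖z‖ := by
      refine (norm_add_le _ _).trans ?_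
      rw [Complex.norm_I]
      exact Real.add_one_le_exp _
    calc ‖z + I‖ * ‖g z‖ ^ 2 ≤ Real.exp ‖z‖ * Real.exp (2 * ‖z‖) ^ 2 := by
          apply mul_le_mul h2 (pow_le_pow_left₀ (norm_nonneg _) h1 2) (by positivity)
            (Real.exp_pos _).le
      _ = 1 * Real.exp (5 * ‖z‖) := by
          rw [← Real.exp_nat_mul, ← Real.exp_add, one_mul]
          congr 1
          push_cast
          ring
  · intro x
    refine ⟨(1 + |x|) * Real.exp (20 * (2 * |x| + x ^ 2)), fun t => ?_⟩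
    have hE : 0 < ‖E0 (t : ℂ)‖ := norm_pos_iff.mpr (E0_ne_zero _ (by simp))
    rw [norm_div, div_le_iff₀ hE]
    unfold E0
    rw [norm_mul, norm_mul, norm_pow, norm_pow]
    have h1 := g_shift t x
    have h2 : ‖((t + x : ℝ) : ℂ) + I‖ ≤ (1 + |x|) * ‖(t : ℂ) + I‖ := by
      have h3 : ((t + x : ℝ) : ℂ) + I = ((t : ℂ) + I) + (x : ℂ) := by push_cast; ring
      rw [h3]
      refine (norm_add_le _ _).trans ?_
      have h4 : ‖(x : ℂ)‖ = |x| := by simp
      rw [h4]
      have h5 := norm_add_I_ge (t : ℂ) (by simp)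
      nlinarith [abs_nonneg x]
    calc ‖((t + x : ℝ) : ℂ) + I‖ * ‖g ((t + x : ℝ) : ℂ)‖ ^ 2
        ≤ ((1 + |x|) * ‖(t : ℂ) + I‖) * (Real.exp (20 * (2 * |x| + x ^ 2)) * ‖g (t : ℂ)‖ ^ 2) := by
          apply mul_le_mul h2 h1 (by positivity) (by positivity)
      _ = (1 + |x|) * Real.exp (20 * (2 * |x| + x ^ 2)) * (‖(t : ℂ) + I‖ * ‖g (t : ℂ)‖ ^ 2) := by
          ring
  · intro h
    have h1 := (h.1 _ g_sq_inH I).2.1
    rw [normSq_shift_top] at h1
    exact lt_irrefl _ h1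

end Pool.Agent.Results.MP_060e4f_an.Main
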